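import Pool.Agent.H643R3.Attain

/-!
# `k / (2 (k + 1)) ≤ p_k ≤ 1/2 - 1 / (4 k + 6)`

`IsHardCoreLaw k μ` says that `μ` is the law of a stationary `k`-dependent hard-core process on `ℤ`
and `maxDensity k` is `p_k`, the supremum of the densities of these processes.
-/

namespace Pool.Agent.Results.MP_38bc51_pr.OrderOfTheGap

open Pool.Agent.H643R3

/-- Two-sided bounds for `1/2 - p_k`, valid for all `k ≥ 1`:
`1 / (4 k + 6) ≤ 1/2 - p_k ≤ 1 / (2 k + 2)`. -/
theorem result (k : ℕ) (hk : 1 ≤ k) :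
    1 / (4 * (k : ℝ) + 6) ≤ 1 / 2 - maxDensity k ∧
      1 / 2 - maxDensity k ≤ 1 / (2 * (k : ℝ) + 2) := by
  constructor
  · have h : maxDensity k ≤ 1 / 2 - 1 / (4 * k + 6) :=
      maxDensity_le fun μ h => by rw [zero_eq_cyl]; exact upper_bound h
    linarith
  · obtain ⟨n, rfl⟩ := Nat.exists_eq_add_of_le' hk
    have h1 := gauss_density n
    have h2 := le_maxDensity (gauss_law (n + 1))
    have h3 : ((n : ℝ) + 1) / (2 * (n + 2)) = 1 / 2 - 1 / (2 * ((n + 1 : ℕ) : ℝ) + 2) := by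
      push_cast
      field_simp
      ring
    linarith

end Pool.Agent.Results.MP_38bc51_pr.OrderOfTheGap
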