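import Pool.Agent.H643R3.Attain

/-!
# `p_2 > 0.355 > 1/3`

`IsHardCoreLaw k μ` says that `μ` is the law of a stationary `k`-dependent hard-core process on `ℤ`
and `maxDensity k` is `p_k`, the supremum of the densities of these processes.
-/

namespace Pool.Agent.Results.MP_38bc51_pr.TwoDependentAboveOneThird

open Pool.Agent.H643R3

/-- For every `k ≥ 2` the maximal density `p_k` of stationary `k`-dependent hard-core processes on
`ℤ` is larger than `71/200 = 0.355`; in particular `p_2` is not `1/3`. -/
theorem result (k : ℕ) (hk : 2 ≤ k) : (71 / 200 : ℝ) < maxDensity k := by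
  obtain ⟨μ, h1, h2⟩ := exists_process
  have h3 := le_maxDensity h1
  rw [h2] at h3
  refine lt_of_lt_of_le ?_ (h3.trans (maxDensity_mono hk))
  norm_num

end Pool.Agent.Results.MP_38bc51_pr.TwoDependentAboveOneThird
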